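import Pool.Agent.H.MP_625e57_gt.A

namespace Pool.Agent.Results.MP_625e57_gt.No
open Pool.Agent.H.MP_625e57_gt

theorem result : ∃ (m : ℕ) (V : Fin m → Fin 4 → ℝ),
    ConvexPoly V ∧ Hyperbolic V ∧ LocShallow V ∧ ¬ GlobShallow V :=
  ⟨6, oct, oct_conv, oct_hyp, oct_loc, oct_not⟩

end Pool.Agent.Results.MP_625e57_gt.No
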