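import Pool.Agent.H.MP_625e57_gt.A

namespace Pool.Agent.Results.MP_625e57_gt.UpToSign
open Pool.Agent.H.MP_625e57_gt

theorem result (m : ℕ) (V : Fin m → Fin 4 → ℝ) (h : ConvexPoly V) (hL : LocShallow V) :
    GlobShallow V ∨ GlobShallow (-V) := dich h hL

end Pool.Agent.Results.MP_625e57_gt.UpToSign
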